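import Pool.Agent.Helper97.RK.Stmts
import Pool.Agent.Helper15.HallDiv

set_option autoImplicit false

namespace Pool.Agent.Helper97.RK

theorem con_mono {C n : ℤ} (hC : 1 ≤ C) (hn : 1 ≤ n) {i j i' j' : ℕ} (hi : i ≤ i')
    (hj : j ≤ j') : C ^ i * n ^ j ≤ C ^ i' * n ^ j' :=
  mul_le_mul (pow_le_pow_right₀ hC hi) (pow_le_pow_right₀ hn hj) (by positivity) (by positivity)

theorem con_X {C n a b p : ℤ} (hC : 1 ≤ C) (hn : 1 ≤ n) (ha : |a| ≤ C * n ^ 6)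
    (hb : |b| ≤ C * n ^ 6) (hp : |p| ≤ C * n ^ 2) : |2 * a * p + b| ≤ 3 * (C ^ 2 * n ^ 8) := by
  have h1 := abs_add_le (2 * a * p) b
  have h2 : |2 * a * p| = 2 * (|a| * |p|) := by
    rw [abs_mul, abs_mul, abs_of_pos (by norm_num : (0 : ℤ) < 2), mul_assoc]
  have h3 : |a| * |p| ≤ (C * n ^ 6) * (C * n ^ 2) :=
    mul_le_mul ha hp (abs_nonneg _) (by positivity)
  have h4 : (C * n ^ 6) * (C * n ^ 2) = C ^ 2 * n ^ 8 := by ring
  have h5 := con_mono hC hn (show 1 ≤ 2 by norm_num) (show 6 ≤ 8 by norm_num)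
  rw [pow_one] at h5
  linarith

theorem con_y {C n a b c p y : ℤ} (hC : 1 ≤ C) (hn : 1 ≤ n) (ha : |a| ≤ C * n ^ 6)
    (hb : |b| ≤ C * n ^ 6) (hc : |c| ≤ C * n ^ 6) (hp : |p| ≤ C * n ^ 2)
    (h : y ^ 2 = a * p ^ 2 + b * p + c) : |y| ≤ 3 * (C ^ 3 * n ^ 10) := by
  have h0 : |y| ≤ y ^ 2 := by
    rw [← sq_abs y]
    rcases (abs_nonneg y).eq_or_lt with h9 | h9
    · rw [← h9]
      norm_num
    · have h10 : 1 ≤ |y| := h9
      nlinarith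
  have h1 : y ^ 2 ≤ |a * p ^ 2 + b * p + c| := by rw [← h]; exact le_abs_self _
  have h2 := abs_add_le (a * p ^ 2 + b * p) c
  have h3 := abs_add_le (a * p ^ 2) (b * p)
  have h4 : |a * p ^ 2| = |a| * |p| ^ 2 := by rw [abs_mul, abs_pow]
  have h5 : |b * p| = |b| * |p| := abs_mul _ _
  have h6 : |p| ^ 2 ≤ (C * n ^ 2) ^ 2 := pow_le_pow_left₀ (abs_nonneg _) hp 2
  have h7 : |a| * |p| ^ 2 ≤ (C * n ^ 6) * (C * n ^ 2) ^ 2 :=
    mul_le_mul ha h6 (by positivity) (by positivity)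
  have h8 : |b| * |p| ≤ (C * n ^ 6) * (C * n ^ 2) :=
    mul_le_mul hb hp (abs_nonneg _) (by positivity)
  have e1 : (C * n ^ 6) * (C * n ^ 2) ^ 2 = C ^ 3 * n ^ 10 := by ring
  have e2 : (C * n ^ 6) * (C * n ^ 2) = C ^ 2 * n ^ 8 := by ring
  have m1 := con_mono hC hn (show 1 ≤ 3 by norm_num) (show 6 ≤ 10 by norm_num)
  rw [pow_one] at m1
  have m2 := con_mono hC hn (show 2 ≤ 3 by norm_num) (show 8 ≤ 10 by norm_num)
  linarith

theorem con_N {C n a b c : ℤ} (hC : 1 ≤ C) (hn : 1 ≤ n) (ha : |a| ≤ C * n ^ 6)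
    (hb : |b| ≤ C * n ^ 6) (hc : |c| ≤ C * n ^ 6) :
    |b ^ 2 - 4 * a * c| ≤ 5 * (C ^ 2 * n ^ 12) := by
  have h1 := abs_sub (b ^ 2) (4 * a * c)
  have h2 : |4 * a * c| = 4 * (|a| * |c|) := by
    rw [abs_mul, abs_mul, abs_of_pos (by norm_num : (0 : ℤ) < 4), mul_assoc]
  have h3 : |b ^ 2| = |b| ^ 2 := abs_pow _ _
  have h4 : |b| ^ 2 ≤ (C * n ^ 6) ^ 2 := pow_le_pow_left₀ (abs_nonneg _) hb 2
  have h5 : |a| * |c| ≤ (C * n ^ 6) * (C * n ^ 6) :=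
    mul_le_mul ha hc (abs_nonneg _) (by positivity)
  have e1 : (C * n ^ 6) * (C * n ^ 6) = C ^ 2 * n ^ 12 := by ring
  have e2 : (C * n ^ 6) ^ 2 = C ^ 2 * n ^ 12 := by ring
  linarith

theorem con_log {δ B : ℝ} (hδ : 0 < δ) (hB : 1 ≤ B) (M : ℕ) (hM : (M : ℝ) ≤ B) :
    ((Nat.log 2 M : ℕ) : ℝ) + 2 ≤ (1 / (δ * Real.log 2) + 2) * B ^ δ := by
  have hl : 0 < Real.log 2 := Real.log_pos (by norm_num)
  have hB1 : 1 ≤ B ^ δ := Real.one_le_rpow hB hδ.le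
  have h1 : ((Nat.log 2 M : ℕ) : ℝ) ≤ Real.log M / Real.log 2 := by
    have := Real.natLog_le_logb M 2
    rwa [Real.logb, Nat.cast_ofNat] at this
  have h2 : Real.log M ≤ B ^ δ / δ := by
    refine le_trans (Real.log_le_rpow_div (Nat.cast_nonneg M) hδ) ?_
    exact div_le_div_of_nonneg_right (Real.rpow_le_rpow (Nat.cast_nonneg M) hM hδ.le) hδ.le
  have h3 : Real.log M / Real.log 2 ≤ B ^ δ / δ / Real.log 2 :=
    div_le_div_of_nonneg_right h2 hl.le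
  have h4 : B ^ δ / δ / Real.log 2 = 1 / (δ * Real.log 2) * B ^ δ := by
    field_simp
  rw [add_mul, ← h4]
  linarith

theorem st_CONIC (h : ST_PELLN) : ST_CONIC := by
  intro ε hε C
  obtain ⟨C1, hC1, hdiv⟩ := Pool.Agent.Helper15.Hall.card_divisors_le_rpow (ε / 150)
    (by positivity)
  have hδ : 0 < ε / 150 := by positivity
  have hl : 0 < Real.log 2 := Real.log_pos (by norm_num)
  have hK : 0 < 1 / (ε / 150 * Real.log 2) + 2 := by positivity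
  refine ⟨25 * C1 ^ 2 * (1 / (ε / 150 * Real.log 2) + 2) *
    ((144 * (C : ℝ) ^ 9 + 1) ^ (ε / 150)) ^ 3, by positivity, ?_⟩
  intro n hn a b c ha hb hc ha0 hN
  have hn1 : (1 : ℤ) ≤ n := by exact_mod_cast hn
  have hC : 1 ≤ C := by
    rcases Nat.eq_zero_or_pos C with h0 | h0
    · rw [h0] at ha
      simp at ha
      exact absurd ha ha0
    · exact h0
  have hCZ : (1 : ℤ) ≤ C := by exact_mod_cast hC
  obtain ⟨s, g, hgs, hs⟩ := Nat.sq_mul_squarefree a.natAbs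
  have hg0 : g ≠ 0 := by
    intro h0
    rw [h0] at hgs
    have : a.natAbs = 0 := by rw [← hgs]; simp
    exact ha0 (Int.natAbs_eq_zero.1 this)
  have hs0 : s ≠ 0 := hs.ne_zero
  set d : ℤ := a.sign * s with hd
  have hdabs : d.natAbs = s := by
    rw [hd, Int.natAbs_mul, Int.natAbs_sign_of_ne_zero ha0, one_mul, Int.natAbs_natCast]
  have hdsq : Squarefree d := by
    rw [← Int.squarefree_natAbs, hdabs]
    exact hs
  have hda : (g : ℤ) ^ 2 * d = a := by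
    have e1 : a.sign * (a.natAbs : ℤ) = a := Int.sign_mul_natAbs a
    rw [← hgs] at e1
    push_cast at e1
    rw [hd]
    linarith
  have hgT : (g : ℤ) ≤ C * n ^ 6 := by
    have h1 : g ≤ a.natAbs := by
      rw [← hgs]
      have : 1 ≤ s := Nat.pos_of_ne_zero hs0
      have : 1 ≤ g := Nat.pos_of_ne_zero hg0
      nlinarith
    have h2 : (g : ℤ) ≤ |a| := by
      rw [Int.abs_eq_natAbs]
      exact_mod_cast h1
    linarith
  set T : ℕ := 6 * C ^ 4 * n ^ 16 with hT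
  have hT1 : 1 ≤ T := by
    have : 0 < C ^ 4 * n ^ 16 := by positivity
    rw [hT, mul_assoc]
    omega
  have hTZ : (T : ℤ) = 6 * ((C : ℤ) ^ 4 * n ^ 16) := by
    rw [hT]
    push_cast
    ring
  set t : Set (ℤ × ℤ) := {v : ℤ × ℤ | v.1 ^ 2 - d * v.2 ^ 2 = b ^ 2 - 4 * a * c ∧ |v.1| ≤ T ∧
    |v.2| ≤ T} with ht
  have htf : t.Finite := by
    refine Set.Finite.subset (Finset.finite_toSet
      (Finset.Icc (-(T : ℤ)) T ×ˢ Finset.Icc (-(T : ℤ)) T)) ?_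
    intro v hv
    rw [Finset.mem_coe, Finset.mem_product, Finset.mem_Icc, Finset.mem_Icc, ← abs_le, ← abs_le]
    exact hv.2
  have hmap : Set.MapsTo (fun v : ℤ × ℤ => (2 * a * v.1 + b, 2 * (g : ℤ) * v.2))
      {v : ℤ × ℤ | |v.1| ≤ C * n ^ 2 ∧ v.2 ^ 2 = a * v.1 ^ 2 + b * v.1 + c} t := by
    intro v hv
    obtain ⟨hv1, hv2⟩ := hv
    refine ⟨?_, ?_, ?_⟩
    · show (2 * a * v.1 + b) ^ 2 - d * (2 * (g : ℤ) * v.2) ^ 2 = b ^ 2 - 4 * a * c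
      have e1 : d * (2 * (g : ℤ) * v.2) ^ 2 = 4 * ((g : ℤ) ^ 2 * d) * v.2 ^ 2 := by ring
      rw [e1, hda, hv2]
      ring
    · show |2 * a * v.1 + b| ≤ (T : ℤ)
      have h1 := con_X hCZ hn1 ha hb hv1
      have h2 := con_mono hCZ hn1 (show 2 ≤ 4 by norm_num) (show 8 ≤ 16 by norm_num)
      have h3 : 0 ≤ (C : ℤ) ^ 4 * n ^ 16 := by positivity
      rw [hTZ]
      linarith
    · show |2 * (g : ℤ) * v.2| ≤ (T : ℤ)
      have h1 := con_y hCZ hn1 ha hb hc hv1 hv2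
      have hg : (0 : ℤ) ≤ g := Int.natCast_nonneg g
      rw [abs_mul, abs_mul, abs_of_pos (by norm_num : (0 : ℤ) < 2), abs_of_nonneg hg, hTZ]
      have h2 : (g : ℤ) * |v.2| ≤ (C * n ^ 6) * (3 * (C ^ 3 * n ^ 10)) :=
        mul_le_mul hgT h1 (abs_nonneg _) (by positivity)
      have e2 : ((C : ℤ) * n ^ 6) * (3 * (C ^ 3 * n ^ 10)) = 3 * (C ^ 4 * n ^ 16) := by ring
      linarith
  have hinj : Set.InjOn (fun v : ℤ × ℤ => (2 * a * v.1 + b, 2 * (g : ℤ) * v.2))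
      {v : ℤ × ℤ | |v.1| ≤ C * n ^ 2 ∧ v.2 ^ 2 = a * v.1 ^ 2 + b * v.1 + c} := by
    intro v _ w _ hvw
    have e1 := congrArg Prod.fst hvw
    have e2 := congrArg Prod.snd hvw
    simp only [add_left_inj] at e1 e2
    have h1 : v.1 = w.1 := mul_left_cancel₀ (mul_ne_zero two_ne_zero ha0) e1
    have h2 : v.2 = w.2 :=
      mul_left_cancel₀ (mul_ne_zero two_ne_zero (Int.natCast_ne_zero.2 hg0)) e2
    exact Prod.ext h1 h2
  refine ⟨Set.Finite.of_injOn hmap hinj htf, ?_⟩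
  have hcard := Set.ncard_le_ncard_of_injOn _ hmap hinj htf
  have hP := h d (b ^ 2 - 4 * a * c) hdsq hN T hT1
  have hle := le_trans hcard hP
  rw [hdabs] at hle
  set B : ℝ := (144 * (C : ℝ) ^ 9 + 1) * (n : ℝ) ^ 50 with hB
  have hnR : (1 : ℝ) ≤ n := by exact_mod_cast hn
  have hCR : (1 : ℝ) ≤ C := by exact_mod_cast hC
  have hB1 : 1 ≤ B := by
    have h1 : (1 : ℝ) ≤ 144 * (C : ℝ) ^ 9 + 1 := by
      have : 0 ≤ 144 * (C : ℝ) ^ 9 := by positivity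
      linarith
    have h2 : (1 : ℝ) ≤ (n : ℝ) ^ 50 := one_le_pow₀ hnR
    nlinarith
  have hM1 : ((2 * (1 + s) * T ^ 2 : ℕ) : ℝ) ≤ B := by
    have hsC : (s : ℝ) ≤ C * (n : ℝ) ^ 6 := by
      have h1 : s ≤ a.natAbs := by
        rw [← hgs]
        have : 1 ≤ g ^ 2 := Nat.pos_of_ne_zero (pow_ne_zero 2 hg0)
        nlinarith
      have h2 : (s : ℤ) ≤ C * n ^ 6 := by
        refine le_trans ?_ ha
        rw [Int.abs_eq_natAbs]
        exact_mod_cast h1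
      exact_mod_cast h2
    have h1C : (1 : ℝ) ≤ C * (n : ℝ) ^ 6 := by
      have : (1 : ℝ) ≤ (n : ℝ) ^ 6 := one_le_pow₀ hnR
      nlinarith
    rw [hT, hB]
    push_cast
    calc (2 : ℝ) * (1 + s) * (6 * C ^ 4 * n ^ 16) ^ 2
        ≤ 2 * (2 * (C * (n : ℝ) ^ 6)) * (6 * C ^ 4 * n ^ 16) ^ 2 := by
          apply mul_le_mul_of_nonneg_right _ (by positivity)
          linarith
      _ = 144 * (C : ℝ) ^ 9 * (n : ℝ) ^ 38 := by ring
      _ ≤ (144 * (C : ℝ) ^ 9 + 1) * (n : ℝ) ^ 50 := by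
          apply mul_le_mul _ _ (by positivity) (by positivity)
          · linarith
          · exact pow_le_pow_right₀ hnR (by norm_num)
  have hN1 : (((b ^ 2 - 4 * a * c).natAbs : ℕ) : ℝ) ≤ B := by
    have h1 := con_N hCZ hn1 ha hb hc
    have h2 : (((b ^ 2 - 4 * a * c).natAbs : ℕ) : ℝ) ≤ 5 * ((C : ℝ) ^ 2 * (n : ℝ) ^ 12) := by
      rw [Int.abs_eq_natAbs] at h1
      exact_mod_cast h1
    refine le_trans h2 ?_
    rw [hB]
    have h3 : (C : ℝ) ^ 2 ≤ (C : ℝ) ^ 9 := pow_le_pow_right₀ hCR (by norm_num)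
    have h4 : (n : ℝ) ^ 12 ≤ (n : ℝ) ^ 50 := pow_le_pow_right₀ hnR (by norm_num)
    have h5 : 0 ≤ (C : ℝ) ^ 9 := by positivity
    calc (5 : ℝ) * ((C : ℝ) ^ 2 * (n : ℝ) ^ 12) = (5 * (C : ℝ) ^ 2) * (n : ℝ) ^ 12 := by ring
      _ ≤ (144 * (C : ℝ) ^ 9 + 1) * (n : ℝ) ^ 50 := by
          apply mul_le_mul _ h4 (by positivity) (by positivity)
          linarith
  have hd1 : (((b ^ 2 - 4 * a * c).natAbs.divisors.card : ℕ) : ℝ) ≤ C1 * B ^ (ε / 150) := by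
    refine le_trans (hdiv _ (Int.natAbs_ne_zero.2 hN)) ?_
    apply mul_le_mul_of_nonneg_left _ (by linarith)
    exact Real.rpow_le_rpow (Nat.cast_nonneg _) hN1 hδ.le
  have hl1 := con_log hδ hB1 _ hM1
  have hle' : (({v : ℤ × ℤ | |v.1| ≤ C * n ^ 2 ∧ v.2 ^ 2 = a * v.1 ^ 2 + b * v.1 + c}.ncard :
      ℕ) : ℝ) ≤ (((b ^ 2 - 4 * a * c).natAbs.divisors.card : ℕ) : ℝ) ^ 2 *
        (25 * (((Nat.log 2 (2 * (1 + s) * T ^ 2) : ℕ) : ℝ) + 2)) := by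
    exact_mod_cast hle
  refine le_trans hle' ?_
  have hBp : 0 < B ^ (ε / 150) := Real.rpow_pos_of_pos (by linarith) _
  have hsq : (((b ^ 2 - 4 * a * c).natAbs.divisors.card : ℕ) : ℝ) ^ 2 ≤
      (C1 * B ^ (ε / 150)) ^ 2 := pow_le_pow_left₀ (Nat.cast_nonneg _) hd1 2
  have hfin : B ^ (ε / 150) = (144 * (C : ℝ) ^ 9 + 1) ^ (ε / 150) * (n : ℝ) ^ (ε / 3) := by
    rw [hB, Real.mul_rpow (by positivity) (by positivity), ← Real.rpow_natCast (n : ℝ) 50,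
      ← Real.rpow_mul (by positivity)]
    congr 2
    push_cast
    ring
  have hn3 : ((n : ℝ) ^ (ε / 3)) ^ 3 = (n : ℝ) ^ ε := by
    rw [← Real.rpow_natCast, ← Real.rpow_mul (by positivity)]
    congr 1
    push_cast
    ring
  calc (((b ^ 2 - 4 * a * c).natAbs.divisors.card : ℕ) : ℝ) ^ 2 *
        (25 * (((Nat.log 2 (2 * (1 + s) * T ^ 2) : ℕ) : ℝ) + 2))
      ≤ (C1 * B ^ (ε / 150)) ^ 2 *
        (25 * ((1 / (ε / 150 * Real.log 2) + 2) * B ^ (ε / 150))) := by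
        apply mul_le_mul hsq _ (by positivity) (by positivity)
        linarith
    _ = 25 * C1 ^ 2 * (1 / (ε / 150 * Real.log 2) + 2) * (B ^ (ε / 150)) ^ 3 := by ring
    _ = 25 * C1 ^ 2 * (1 / (ε / 150 * Real.log 2) + 2) *
        ((144 * (C : ℝ) ^ 9 + 1) ^ (ε / 150)) ^ 3 * (n : ℝ) ^ ε := by
        rw [hfin, ← hn3]
        ring

end Pool.Agent.Helper97.RK
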