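import Pool.Agent.Helper97.RK.Stmts

set_option autoImplicit false

namespace Pool.Agent.Helper97.RK

theorem pell4_gap {d U W U' W' : ℤ} (hd : 2 ≤ d) (hU : 0 < U) (hW : 0 < W) (hU' : 0 < U')
    (hWW : W < W') (h : U ^ 2 - d * W ^ 2 = 4) (h' : U' ^ 2 - d * W' ^ 2 = 4) :
    3 * U ≤ 2 * U' := by
  have e1 : Even (U ^ 2 - d * W ^ 2) := by rw [h]; decide
  have e2 : Even (U' ^ 2 - d * W' ^ 2) := by rw [h']; decide
  have n2 : (2 : ℕ) ≠ 0 := by decide
  rw [Int.even_sub, Int.even_mul, Int.even_pow' n2, Int.even_pow' n2] at e1 e2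
  have hA : Even (U * U' - d * W * W') := by
    rw [Int.even_sub, Int.even_mul, Int.even_mul, Int.even_mul]
    tauto
  have hB : Even (U * W' - U' * W) := by
    rw [Int.even_sub, Int.even_mul, Int.even_mul]
    tauto
  obtain ⟨a, ha⟩ := hA
  obtain ⟨b, hb⟩ := hB
  have hW' : 0 < W' := lt_trans hW hWW
  have hd0 : 0 < d := by linarith
  have id1 : (U * U' - d * W * W') ^ 2 - d * (U * W' - U' * W) ^ 2 =
      (U ^ 2 - d * W ^ 2) * (U' ^ 2 - d * W' ^ 2) := by ring
  rw [h, h', ha, hb] at id1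
  have id2 : (U * U' - d * W * W') * U + d * (U * W' - U' * W) * W =
      U' * (U ^ 2 - d * W ^ 2) := by ring
  rw [h, ha, hb] at id2
  have hb0 : 0 < b := by
    have h1 : 0 < (U * W' - U' * W) * (U * W' + U' * W) := by
      have : (U * W' - U' * W) * (U * W' + U' * W) = 4 * ((W' - W) * (W' + W)) := by
        linear_combination W' ^ 2 * h - W ^ 2 * h'
      rw [this]
      have h2 : 0 < W' - W := by linarith
      positivity
    have h3 : 0 < U * W' + U' * W := by positivity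
    have h4 := (pos_iff_pos_of_mul_pos h1).2 h3
    rw [hb] at h4
    linarith
  have ha0 : 0 < a := by
    have h1 : 0 < (U * U' - d * W * W') * (U * U' + d * W * W') := by
      have : (U * U' - d * W * W') * (U * U' + d * W * W') = 4 * U' ^ 2 + 4 * (d * W ^ 2) := by
        linear_combination U' ^ 2 * h + d * W ^ 2 * h'
      rw [this]
      positivity
    have h3 : 0 < U * U' + d * W * W' := by positivity
    have h4 := (pos_iff_pos_of_mul_pos h1).2 h3
    rw [ha] at h4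
    linarith
  have ha3 : 3 ≤ a := by
    by_contra hlt
    push Not at hlt
    have h5 : a ^ 2 = 4 + d * b ^ 2 := by linarith
    have h6 : 1 ≤ b ^ 2 := by nlinarith
    have h7 : 2 ≤ d * b ^ 2 := by nlinarith
    have h8 : a ≤ 2 := by omega
    nlinarith
  have h9 : 0 ≤ d * b * W := by positivity
  have h10 : 3 * U ≤ a * U := mul_le_mul_of_nonneg_right ha3 hU.le
  linarith [id2, h9, h10]

theorem pell4_gap2 {d U W U' W' : ℤ} (hd : 2 ≤ d) (hU : 0 < U) (hW : 0 < W) (hU' : 0 < U')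
    (hWW : W < W') (h : U ^ 2 - d * W ^ 2 = 4) (h' : U' ^ 2 - d * W' ^ 2 = 4) :
    Nat.log 2 (U.natAbs ^ 2) < Nat.log 2 (U'.natAbs ^ 2) := by
  have h1 := pell4_gap hd hU hW hU' hWW h h'
  have h2 : 3 * U.natAbs ≤ 2 * U'.natAbs := by omega
  have h3 : 0 < U.natAbs := by omega
  have h4 : U.natAbs ^ 2 * 2 ≤ U'.natAbs ^ 2 := by nlinarith
  have h5 : U.natAbs ^ 2 ≠ 0 := by positivity
  have h6 := Nat.log_mono_right (b := 2) h4
  rw [Nat.log_mul_base (by norm_num) h5] at h6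
  omega

theorem pell4_pos (d : ℤ) (hd : 2 ≤ d) (T : ℕ) :
    ((Finset.Icc (1 : ℤ) T ×ˢ Finset.Icc (1 : ℤ) T).filter
      (fun v : ℤ × ℤ => v.1 ^ 2 - d * v.2 ^ 2 = 4)).card ≤ 2 * Nat.log 2 T + 2 := by
  rw [← Finset.card_range (2 * Nat.log 2 T + 2)]
  refine Finset.card_le_card_of_injOn (fun v : ℤ × ℤ => Nat.log 2 (v.1.natAbs ^ 2)) ?_ ?_
  · intro v hv
    rw [Finset.mem_coe, Finset.mem_filter, Finset.mem_product, Finset.mem_Icc,
      Finset.mem_Icc] at hv
    rw [Finset.mem_coe, Finset.mem_range]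
    have h1 : v.1.natAbs ≤ T := by omega
    have h2 : T < 2 ^ (Nat.log 2 T + 1) := Nat.lt_pow_succ_log_self (by norm_num) T
    have h3 : v.1.natAbs ^ 2 < 2 ^ (2 * Nat.log 2 T + 2) := by
      calc v.1.natAbs ^ 2 < (2 ^ (Nat.log 2 T + 1)) ^ 2 :=
            Nat.pow_lt_pow_left (lt_of_le_of_lt h1 h2) (by norm_num)
        _ = 2 ^ (2 * Nat.log 2 T + 2) := by rw [← pow_mul]; congr 1; ring
    exact Nat.log_lt_of_lt_pow (by have : 0 < v.1.natAbs := by omega
                                   positivity) h3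
  · intro v hv w hw hvw
    rw [Finset.mem_coe, Finset.mem_filter, Finset.mem_product, Finset.mem_Icc,
      Finset.mem_Icc] at hv hw
    obtain ⟨⟨hv1, hv2⟩, hv3⟩ := hv
    obtain ⟨⟨hw1, hw2⟩, hw3⟩ := hw
    have hvw' : Nat.log 2 (v.1.natAbs ^ 2) = Nat.log 2 (w.1.natAbs ^ 2) := hvw
    rcases lt_trichotomy v.2 w.2 with h | h | h
    · have := pell4_gap2 hd (by omega) (by omega) (by omega) h hv3 hw3
      omega
    · have e : v.1 ^ 2 = w.1 ^ 2 := by rw [h] at hv3; linarith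
      have e2 : v.1 = w.1 := by
        rcases sq_eq_sq_iff_eq_or_eq_neg.1 e with h1 | h1
        · exact h1
        · omega
      exact Prod.ext e2 h
    · have := pell4_gap2 hd (by omega) (by omega) (by omega) h hw3 hv3
      omega

theorem pell4_box (d : ℤ) (T : ℕ) (hd0 : d ≠ 0) (v : ℤ × ℤ)
    (h : v.1 ^ 2 - d * v.2 ^ 2 = 4) (hT : |v.1| ≤ T) :
    v ∈ Finset.Icc (-((T : ℤ) + 2)) (T + 2) ×ˢ Finset.Icc (-((T : ℤ) + 2)) (T + 2) := by
  rw [abs_le] at hT
  rw [Finset.mem_product, Finset.mem_Icc, Finset.mem_Icc]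
  have hT0 : (0 : ℤ) ≤ T := Int.natCast_nonneg T
  have h2 : |v.2| ≤ (T : ℤ) + 2 := by
    apply abs_le_of_sq_le_sq _ (by linarith)
    rcases lt_or_gt_of_ne hd0 with h1 | h1
    · have : v.2 ^ 2 ≤ -d * v.2 ^ 2 := by nlinarith [sq_nonneg v.2]
      nlinarith [sq_nonneg v.1]
    · have : v.2 ^ 2 ≤ d * v.2 ^ 2 := by nlinarith [sq_nonneg v.2]
      have h3 : v.1 ^ 2 ≤ (T : ℤ) ^ 2 := by nlinarith
      nlinarith
  rw [abs_le] at h2
  refine ⟨⟨by linarith, by linarith⟩, ⟨by linarith, by linarith⟩⟩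

/-- small cases -/
theorem pell4_small (d : ℤ) (hd : d < 0 ∨ d = 1) (v : ℤ × ℤ)
    (h : v.1 ^ 2 - d * v.2 ^ 2 = 4) :
    v ∈ Finset.Icc (-2 : ℤ) 2 ×ˢ Finset.Icc (-2 : ℤ) 2 := by
  rw [Finset.mem_product, Finset.mem_Icc, Finset.mem_Icc, ← abs_le, ← abs_le]
  rcases hd with hd | hd
  · constructor
    · apply abs_le_of_sq_le_sq _ (by norm_num)
      nlinarith [sq_nonneg v.2]
    · apply abs_le_of_sq_le_sq _ (by norm_num)
      nlinarith [sq_nonneg v.2, sq_nonneg v.1]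
  · subst hd
    have h1 : (v.1 - v.2) * (v.1 + v.2) = 4 := by linarith
    have h2 : (v.1 - v.2) ∣ 4 := Dvd.intro _ h1
    have h3 : (v.1 + v.2) ∣ 4 := Dvd.intro_left _ h1
    have h4 : |v.1 - v.2| ≤ 4 := by
      have := Int.le_of_dvd (by norm_num) ((abs_dvd _ _).2 h2)
      exact this
    have h5 : |v.1 + v.2| ≤ 4 := by
      have := Int.le_of_dvd (by norm_num) ((abs_dvd _ _).2 h3)
      exact this
    rw [abs_le] at h4 h5
    have e1 : Even ((v.1 - v.2) * (v.1 + v.2)) := by rw [h1]; decide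
    have h6 : v.1 - v.2 = 2 ∧ v.1 + v.2 = 2 ∨ v.1 - v.2 = -2 ∧ v.1 + v.2 = -2 := by
      obtain ⟨x, hx⟩ : ∃ x, v.1 - v.2 = x := ⟨_, rfl⟩
      obtain ⟨y, hy⟩ : ∃ y, v.1 + v.2 = y := ⟨_, rfl⟩
      rw [hx, hy] at h1
      rw [hx] at h4
      rw [hy] at h5
      have hxy : Even (x + y) := ⟨v.1, by rw [← hx, ← hy]; ring⟩
      obtain ⟨s, hs⟩ := hxy
      rw [hx, hy]
      have h4a := h4.1
      have h4b := h4.2
      interval_cases x <;> omega
    rcases h6 with h6 | h6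
    · rw [abs_le, abs_le]
      omega
    · rw [abs_le, abs_le]
      omega

theorem st_PELL4 : ST_PELL4 := by
  intro d hd T hT
  have hd0 : d ≠ 0 := hd.ne_zero
  have hsub := fun (v : ℤ × ℤ) (hv : v ∈ {v : ℤ × ℤ | v.1 ^ 2 - d * v.2 ^ 2 = 4 ∧ |v.1| ≤ T}) =>
    pell4_box d T hd0 v hv.1 hv.2
  refine ⟨Set.Finite.subset (Finset.finite_toSet _) hsub, ?_⟩
  by_cases hs : d < 0 ∨ d = 1
  · have h1 : {v : ℤ × ℤ | v.1 ^ 2 - d * v.2 ^ 2 = 4 ∧ |v.1| ≤ T} ⊆
        ((Finset.Icc (-2 : ℤ) 2 ×ˢ Finset.Icc (-2 : ℤ) 2 : Finset (ℤ × ℤ)) : Set (ℤ × ℤ)) :=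
      fun v hv => pell4_small d hs v hv.1
    have h2 := Set.ncard_le_ncard h1 (Finset.finite_toSet _)
    rw [Set.ncard_coe_finset] at h2
    have h3 : (Finset.Icc (-2 : ℤ) 2 ×ˢ Finset.Icc (-2 : ℤ) 2 : Finset (ℤ × ℤ)).card = 25 := by
      rw [Finset.card_product]
      rfl
    rw [h3] at h2
    refine le_trans h2 ?_
    omega
  · have hd2 : 2 ≤ d := by omega
    have hp := pell4_pos d hd2 T
    set P := (Finset.Icc (1 : ℤ) T ×ˢ Finset.Icc (1 : ℤ) T).filter
      (fun v : ℤ × ℤ => v.1 ^ 2 - d * v.2 ^ 2 = 4) with hP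
    have h1 : {v : ℤ × ℤ | v.1 ^ 2 - d * v.2 ^ 2 = 4 ∧ |v.1| ≤ T} ⊆
        ((({((2 : ℤ), (0 : ℤ)), (-2, 0)} : Finset (ℤ × ℤ)) ∪ (P.image (fun v => (v.1, v.2)) ∪
          P.image (fun v => (-v.1, v.2)) ∪ (P.image (fun v => (v.1, -v.2)) ∪
          P.image (fun v => (-v.1, -v.2)))) : Finset (ℤ × ℤ)) : Set (ℤ × ℤ)) := by
      intro v hv
      obtain ⟨hv1, hv2⟩ := hv
      have hT0 : (0 : ℤ) ≤ T := Int.natCast_nonneg T
      have hv3 : v.2 ≠ 0 → (|v.1|, |v.2|) ∈ P := by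
        intro h0
        rw [hP, Finset.mem_filter, Finset.mem_product, Finset.mem_Icc, Finset.mem_Icc]
        have h5 : 0 < v.2 ^ 2 := by positivity
        have h7 : v.2 ^ 2 ≤ d * v.2 ^ 2 := by nlinarith
        have h6 : 0 < v.1 ^ 2 := by nlinarith
        have h8 : v.1 ≠ 0 := by
          intro h9
          rw [h9] at h6
          simp at h6
        have h9 : 0 < |v.1| := abs_pos.2 h8
        have h10 : 0 < |v.2| := abs_pos.2 h0
        have h11 : |v.2| ≤ T := by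
          apply abs_le_of_sq_le_sq _ hT0
          have h12 : v.1 ^ 2 ≤ (T : ℤ) ^ 2 := by
            rw [← sq_abs v.1]
            exact pow_le_pow_left₀ (abs_nonneg _) hv2 2
          linarith
        refine ⟨⟨⟨by omega, hv2⟩, ⟨by omega, h11⟩⟩, ?_⟩
        simp only [sq_abs]
        exact hv1
      rw [Finset.mem_coe]
      simp only [Finset.mem_union, Finset.mem_image, Finset.mem_insert, Finset.mem_singleton]
      by_cases h0 : v.2 = 0
      · left
        rw [h0] at hv1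
        have h5 : (v.1 - 2) * (v.1 + 2) = 0 := by linarith
        rcases mul_eq_zero.1 h5 with h6 | h6
        · left
          exact Prod.ext (by show v.1 = 2; omega) h0
        · right
          exact Prod.ext (by show v.1 = -2; omega) h0
      · right
        have hm := hv3 h0
        rcases abs_cases v.1 with ⟨h5, _⟩ | ⟨h5, _⟩
        · rcases abs_cases v.2 with ⟨h6, _⟩ | ⟨h6, _⟩
          · left; left
            exact ⟨_, hm, Prod.ext h5 h6⟩
          · right; left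
            exact ⟨_, hm, Prod.ext h5 (by show -|v.2| = v.2; rw [h6]; ring)⟩
        · rcases abs_cases v.2 with ⟨h6, _⟩ | ⟨h6, _⟩
          · left; right
            exact ⟨_, hm, Prod.ext (by show -|v.1| = v.1; rw [h5]; ring) h6⟩
          · right; right
            exact ⟨_, hm, Prod.ext (by show -|v.1| = v.1; rw [h5]; ring)
              (by show -|v.2| = v.2; rw [h6]; ring)⟩
    have h2 := Set.ncard_le_ncard h1 (Finset.finite_toSet _)
    rw [Set.ncard_coe_finset] at h2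
    have c1 := Finset.card_union_le ({((2 : ℤ), (0 : ℤ)), (-2, 0)} : Finset (ℤ × ℤ))
      (P.image (fun v => (v.1, v.2)) ∪
          P.image (fun v => (-v.1, v.2)) ∪ (P.image (fun v => (v.1, -v.2)) ∪
          P.image (fun v => (-v.1, -v.2))))
    have c2 := Finset.card_union_le (P.image (fun v : ℤ × ℤ => (v.1, v.2)) ∪
          P.image (fun v => (-v.1, v.2))) (P.image (fun v => (v.1, -v.2)) ∪
          P.image (fun v => (-v.1, -v.2)))
    have c3 := Finset.card_union_le (P.image (fun v : ℤ × ℤ => (v.1, v.2)))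
          (P.image (fun v => (-v.1, v.2)))
    have c4 := Finset.card_union_le (P.image (fun v : ℤ × ℤ => (v.1, -v.2)))
          (P.image (fun v => (-v.1, -v.2)))
    have c5 : (P.image (fun v : ℤ × ℤ => (v.1, v.2))).card ≤ P.card := Finset.card_image_le
    have c6 : (P.image (fun v : ℤ × ℤ => (-v.1, v.2))).card ≤ P.card := Finset.card_image_le
    have c7 : (P.image (fun v : ℤ × ℤ => (v.1, -v.2))).card ≤ P.card := Finset.card_image_le
    have c8 : (P.image (fun v : ℤ × ℤ => (-v.1, -v.2))).card ≤ P.card := Finset.card_image_le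
    have c9 : ({((2 : ℤ), (0 : ℤ)), (-2, 0)} : Finset (ℤ × ℤ)).card ≤ 2 := Finset.card_le_two
    omega

end Pool.Agent.Helper97.RK
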